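import Pool.Agent.Results.MP_94c9ac_al.Q1AllGroups

/-!
# Zero-sum subsequences in index order

`Good G L`: every sequence of `L` elements of the group `G` has a nonempty subsequence whose terms,
multiplied in index order, give the identity, with the sum of the reciprocals of the orders at most
one. Q2 of MP_94c9ac_al asks whether `Good G |G|` holds for every finite group `G`.
-/

set_option autoImplicit false

namespace Pool.Agent.Results.MP_94c9ac_al.IndexOrderCovers

/-- The weight of the subsequence of `g` given by the list `l` of indices. -/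
noncomputable def wt {G : Type*} [Group G] {L : ℕ} (g : Fin L → G) (l : List (Fin L)) : ℚ :=
  (l.map (fun k => (1 : ℚ) / (orderOf (g k) : ℚ))).sum

/-- Every sequence `g` of `L` elements of `G` has a nonempty subsequence (a strictly increasing
list `l` of indices) of weight at most one whose product in index order is the identity. -/
def Good (G : Type*) [Group G] (L : ℕ) : Prop :=
  ∀ g : Fin L → G, ∃ l : List (Fin L), l ≠ [] ∧ l.Pairwise (· < ·) ∧
    (l.map g).prod = 1 ∧ wt g l ≤ 1

theorem good_comm (A : Type*) [Group A] [Finite A] (hc : ∀ x y : A, x * y = y * x) :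
    Good A (Nat.card A) := by
  classical
  intro g
  obtain ⟨K, hK, ⟨l, hl1, hl2, hl3⟩, hw⟩ :=
    Pool.Agent.Results.MP_94c9ac_al.Q1AllGroups.result A g
  refine ⟨K.sort (· ≤ ·), ?_, Finset.sortedLT_sort K |>.pairwise, ?_, ?_⟩
  · intro h
    have h2 : (K.sort (· ≤ ·)).toFinset = K := Finset.sort_toFinset _ _
    rw [h] at h2
    simp only [List.toFinset_nil] at h2
    exact hK.ne_empty h2.symm
  · have hperm : ((K.sort (· ≤ ·)).map g).Perm (l.map g) := by
      apply List.Perm.map
      rw [List.perm_ext_iff_of_nodup (Finset.sort_nodup _ _) hl1]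
      intro x
      rw [Finset.mem_sort, ← hl2]
      simp
    rw [hperm.prod_eq' (List.pairwise_of_forall_mem_list (fun x _ y _ => hc x y)), hl3]
  · unfold wt
    rw [← List.sum_toFinset _ (Finset.sort_nodup _ _), Finset.sort_toFinset]
    exact hw

/-- many terms in the union of subgroups of the family `S` -/
theorem of_fiber {G : Type*} [Group G] (S : Finset (Subgroup G)) (L : Subgroup G → ℕ)
    (hL : ∀ A ∈ S, Good A (L A)) {M : ℕ} (g : Fin M → G) (E : Finset (Fin M))
    (hcov : ∀ i ∈ E, ∃ A ∈ S, g i ∈ A) (hcard : ∑ A ∈ S, (L A - 1) < E.card) :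
    ∃ l : List (Fin M), l ≠ [] ∧ l.Pairwise (· < ·) ∧ (l.map g).prod = 1 ∧ wt g l ≤ 1 := by
  classical
  have hch : ∀ i, ∃ A : Subgroup G, i ∈ E → A ∈ S ∧ g i ∈ A := by
    intro i
    by_cases hi : i ∈ E
    · obtain ⟨A, h1, h2⟩ := hcov i hi
      exact ⟨A, fun _ => ⟨h1, h2⟩⟩
    · exact ⟨⊤, fun h => absurd h hi⟩
  choose A hA using hch
  obtain ⟨B, hBS, hB⟩ : ∃ B ∈ S, L B ≤ (E.filter (fun i => A i = B)).card := by
    by_contra hcon
    push Not at hcon
    have h1 : E.card = ∑ B ∈ S, (E.filter (fun i => A i = B)).card :=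
      Finset.card_eq_sum_card_fiberwise (fun i hi => (hA i hi).1)
    have h2 : ∑ B ∈ S, (E.filter (fun i => A i = B)).card ≤ ∑ B ∈ S, (L B - 1) :=
      Finset.sum_le_sum fun B hBS => by
        have := hcon B hBS
        omega
    omega
  obtain ⟨T, hT1, hT2⟩ := Finset.exists_subset_card_eq hB
  let e : Fin (L B) ↪o Fin M := T.orderEmbOfFin hT2
  have hmem : ∀ j, g (e j) ∈ B := fun j => by
    have h3 := hT1 (T.orderEmbOfFin_mem hT2 j)
    rw [Finset.mem_filter] at h3
    have h4 := (hA _ h3.1).2
    rw [h3.2] at h4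
    exact h4
  obtain ⟨l, h1, h2, h3, h4⟩ := hL B hBS (fun j => ⟨g (e j), hmem j⟩)
  refine ⟨l.map e, by simpa using h1, ?_, ?_, ?_⟩
  · rw [List.pairwise_map]
    exact h2.imp (fun h => e.lt_iff_lt.2 h)
  · have h5 : ((l.map (fun j => (⟨g (e j), hmem j⟩ : B))).prod : G) = 1 := by
      rw [h3]; rfl
    rw [← h5, ← Subgroup.coe_subtype, map_list_prod, List.map_map, List.map_map]
    rfl
  · refine le_trans (le_of_eq ?_) h4
    unfold wt
    rw [List.map_map]
    congr 1
    apply List.map_congr_left
    intro k _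
    show (1 : ℚ) / (orderOf (g (e k)) : ℚ) = 1 / (orderOf (⟨g (e k), hmem k⟩ : B) : ℚ)
    rw [← Subgroup.orderOf_coe]

theorem good_cover (G : Type*) [Group G] (S : Finset (Subgroup G)) (L : Subgroup G → ℕ)
    (hL : ∀ A ∈ S, Good A (L A)) (hcov : ∀ g : G, ∃ A ∈ S, g ∈ A) :
    Good G (1 + ∑ A ∈ S, (L A - 1)) := by
  intro g
  exact of_fiber S L hL g Finset.univ (fun i _ => hcov (g i)) (by rw [Finset.card_fin]; omega)

theorem good_ext (G : Type*) [Group G] [Finite G] (N : Subgroup G) [N.Normal] (L' : ℕ)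
    (hQ : Good (G ⧸ N) L') (S : Finset (Subgroup G)) (L : Subgroup G → ℕ)
    (hL : ∀ A ∈ S, Good A (L A))
    (hcov : ∀ g : G, g ≠ 1 → Nat.card N * orderOf (g : G ⧸ N) ≤ orderOf g ∨ ∃ A ∈ S, g ∈ A) :
    Good G (Nat.card N * L' + ∑ A ∈ S, (L A - 1)) := by
  classical
  suffices hsuf : ∀ c M : ℕ, Nat.card N = c → M = c * L' + ∑ A ∈ S, (L A - 1) → Good G M from
    hsuf _ _ rfl rfl
  intro c M hc hM g
  rw [hc] at hcov
  by_cases h1 : ∃ i, g i = 1
  · obtain ⟨i, hi⟩ := h1
    exact ⟨[i], by simp, by simp, by simpa using hi, by simp [wt, hi]⟩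
  push Not at h1
  have hc0 : 0 < c := by rw [← hc]; exact Nat.card_pos
  set R : Finset (Fin M) :=
    Finset.univ.filter (fun i => c * orderOf (g i : G ⧸ N) ≤ orderOf (g i)) with hR
  by_cases hcard : ∑ A ∈ S, (L A - 1) < (Finset.univ \ R).card
  · refine of_fiber S L hL g (Finset.univ \ R) (fun i hi => ?_) hcard
    rcases hcov (g i) (h1 i) with h | h
    · exfalso
      rw [Finset.mem_sdiff] at hi
      exact hi.2 (by rw [hR, Finset.mem_filter]; exact ⟨Finset.mem_univ _, h⟩)
    · exact h
  · have hRc : c * L' ≤ R.card := by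
      have h2 := Finset.card_sdiff_add_card_eq_card (Finset.subset_univ R)
      rw [Finset.card_fin] at h2
      omega
    obtain ⟨T, hT1, hT2⟩ := Finset.exists_subset_card_eq hRc
    let e : Fin (c * L') ↪o Fin M := T.orderEmbOfFin hT2
    have heR : ∀ j, c * orderOf (g (e j) : G ⧸ N) ≤ orderOf (g (e j)) := fun j => by
      have h3 := hT1 (T.orderEmbOfFin_mem hT2 j)
      rw [hR, Finset.mem_filter] at h3
      exact h3.2
    have hpos : ∀ j, j < c → ∀ t : Fin L', j * L' + t < c * L' := by
      intro j hj t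
      have h4 : (j + 1) * L' ≤ c * L' := Nat.mul_le_mul_right _ hj
      have := t.2
      nlinarith
    -- the subsequence chosen in block `j`
    have hblock : ∀ j : ℕ, ∃ m : List (Fin M), j < c → (m ≠ [] ∧ m.Pairwise (· < ·) ∧
        (m.map g).prod ∈ N ∧ (c : ℚ) * wt g m ≤ 1 ∧
        ∀ x ∈ m, ∃ t : Fin (c * L'), x = e t ∧ j * L' ≤ t ∧ (t : ℕ) < (j + 1) * L') := by
      intro j
      by_cases hj : j < c
      swap
      · exact ⟨[], fun h => absurd h hj⟩
      obtain ⟨l, k1, k2, k3, k4⟩ := hQ (fun t : Fin L' => (g (e ⟨j * L' + (t : ℕ), hpos j hj t⟩) : G ⧸ N))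
      refine ⟨l.map (fun t : Fin L' => e ⟨j * L' + (t : ℕ), hpos j hj t⟩), fun _ =>
        ⟨fun h => k1 (List.map_eq_nil_iff.1 h), ?_, ?_, ?_, ?_⟩⟩
      · rw [List.pairwise_map]
        refine k2.imp (fun {a b} h => e.lt_iff_lt.2 ?_)
        rw [Fin.lt_def] at h ⊢
        simpa using h
      · rw [← QuotientGroup.eq_one_iff, List.map_map]
        have h5 := map_list_prod (QuotientGroup.mk' N)
          (l.map (g ∘ fun t : Fin L' => e ⟨j * L' + (t : ℕ), hpos j hj t⟩))
        rw [List.map_map] at h5
        exact h5.trans k3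
      · refine le_trans ?_ k4
        unfold wt
        rw [← List.sum_map_mul_left, List.map_map]
        apply List.sum_le_sum
        intro t _
        show (c : ℚ) * (1 / (orderOf (g (e ⟨j * L' + t, hpos j hj t⟩)) : ℚ)) ≤
          1 / (orderOf (g (e ⟨j * L' + t, hpos j hj t⟩) : G ⧸ N) : ℚ)
        have h6 : (c : ℚ) * (orderOf (g (e ⟨j * L' + t, hpos j hj t⟩) : G ⧸ N) : ℚ) ≤
            (orderOf (g (e ⟨j * L' + t, hpos j hj t⟩)) : ℚ) := by
          exact_mod_cast heR ⟨j * L' + t, hpos j hj t⟩
        have h7 : (0 : ℚ) < (orderOf (g (e ⟨j * L' + t, hpos j hj t⟩) : G ⧸ N) : ℚ) := by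
          exact_mod_cast orderOf_pos _
        have h8 : (0 : ℚ) < (orderOf (g (e ⟨j * L' + t, hpos j hj t⟩)) : ℚ) := by
          exact_mod_cast orderOf_pos _
        rw [mul_one_div, div_le_div_iff₀ h8 h7]
        linarith
      · intro x hx
        rw [List.mem_map] at hx
        obtain ⟨t, -, rfl⟩ := hx
        refine ⟨⟨j * L' + t, hpos j hj t⟩, rfl, by simp, ?_⟩
        have := t.2
        show j * L' + (t : ℕ) < (j + 1) * L'
        rw [Nat.add_mul, Nat.one_mul]
        omega
    choose m hm using hblock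
    -- prefix products
    let P : ℕ → G := fun j => ((m j).map g).prod
    let Q : ℕ → G := fun j => ((List.range j).map P).prod
    have hQN : ∀ j, j ≤ c → Q j ∈ N := by
      intro j hj
      apply Subgroup.list_prod_mem
      intro x hx
      rw [List.mem_map] at hx
      obtain ⟨i, hi, rfl⟩ := hx
      rw [List.mem_range] at hi
      exact (hm i (by omega)).2.2.1
    obtain ⟨i, j, hij, hjc, hQij⟩ : ∃ i j, i < j ∧ j ≤ c ∧ Q i = Q j := by
      have : Fintype N := Fintype.ofFinite N
      have hlt : Fintype.card N < Fintype.card (Fin (c + 1)) := by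
        rw [Fintype.card_fin, ← Nat.card_eq_fintype_card, hc]
        omega
      obtain ⟨a, b, hab, hf⟩ := Fintype.exists_ne_map_eq_of_card_lt
        (fun a : Fin (c + 1) => (⟨Q a, hQN a (by omega)⟩ : N)) hlt
      have hf' : Q a = Q b := congrArg Subtype.val hf
      rcases lt_or_gt_of_ne (fun h => hab (Fin.ext h) : (a : ℕ) ≠ b) with h | h
      · exact ⟨a, b, h, by omega, hf'⟩
      · exact ⟨b, a, h, by omega, hf'.symm⟩
    have hsplit : Q j = Q i * ((List.range' i (j - i)).map P).prod := by
      show ((List.range j).map P).prod = ((List.range i).map P).prod * _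
      rw [← List.prod_append, ← List.map_append, List.range_eq_range', List.range_eq_range']
      congr 2
      have h9 := List.range'_append (s := 0) (m := i) (n := j - i) (step := 1)
      rw [Nat.zero_add, Nat.one_mul] at h9
      rw [h9]
      congr 1
      omega
    have hone : ((List.range' i (j - i)).map P).prod = 1 := by
      rw [← hQij] at hsplit
      exact (left_eq_mul.1 hsplit)
    have hrange : ∀ a ∈ List.range' i (j - i), i ≤ a ∧ a < c := by
      intro a ha
      rw [List.mem_range'_1] at ha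
      omega
    refine ⟨(List.range' i (j - i)).flatMap m, ?_, ?_, ?_, ?_⟩
    · intro h
      rw [List.flatMap_eq_nil_iff] at h
      exact (hm i (by omega)).1 (h i (by rw [List.mem_range'_1]; omega))
    · rw [List.pairwise_flatMap]
      refine ⟨fun a ha => (hm a (hrange a ha).2).2.1, ?_⟩
      have hpw : (List.range' i (j - i)).Pairwise (· < ·) := List.pairwise_lt_range'
      refine hpw.imp_of_mem ?_
      intro a b ha hb hab x hx y hy
      obtain ⟨t, rfl, -, ht⟩ := (hm a (hrange a ha).2).2.2.2.2 x hx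
      obtain ⟨u, rfl, hu, -⟩ := (hm b (hrange b hb).2).2.2.2.2 y hy
      apply e.lt_iff_lt.2
      rw [Fin.lt_def]
      have : (a + 1) * L' ≤ b * L' := Nat.mul_le_mul_right _ hab
      omega
    · rw [List.map_flatMap]
      have hfl : ∀ R : List ℕ, (R.flatMap (fun a => (m a).map g)).prod = (R.map P).prod := by
        intro R
        induction R with
        | nil => rfl
        | cons a R ih => rw [List.flatMap_cons, List.prod_append, ih, List.map_cons,
            List.prod_cons]
      rw [hfl, hone]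
    · have hwt : ∀ R : List ℕ, (∀ a ∈ R, a < c) → (c : ℚ) * wt g (R.flatMap m) ≤ R.length := by
        intro R
        induction R with
        | nil => intro _; simp [wt]
        | cons a R ih =>
          intro hR2
          have h10 := ih (fun b hb => hR2 b (List.mem_cons_of_mem _ hb))
          have h11 := (hm a (hR2 a List.mem_cons_self)).2.2.2.1
          have h12 : wt g ((a :: R).flatMap m) = wt g (m a) + wt g (R.flatMap m) := by
            unfold wt
            rw [List.flatMap_cons, List.map_append, List.sum_append]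
          rw [h12, List.length_cons, mul_add]
          push_cast
          linarith
      have h13 := hwt (List.range' i (j - i)) (fun a ha => (hrange a ha).2)
      rw [List.length_range'] at h13
      have h14 : ((j - i : ℕ) : ℚ) ≤ c := by
        exact_mod_cast (by omega : j - i ≤ c)
      have h15 : (0 : ℚ) < c := by exact_mod_cast hc0
      have h16 := h13.trans h14
      by_contra hcon
      push Not at hcon
      nlinarith

/-- a cover by commutative subgroups with few elements in total -/
theorem good_of_comm_cover (G : Type*) [Group G] [Finite G] (S : Finset (Subgroup G))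
    (hc : ∀ A ∈ S, ∀ x ∈ A, ∀ y ∈ A, x * y = y * x) (hcov : ∀ g : G, ∃ A ∈ S, g ∈ A)
    (hs : ∑ A ∈ S, (Nat.card A - 1) < Nat.card G) : Good G (Nat.card G) := by
  intro g
  refine of_fiber S (fun A => Nat.card A) (fun A hA => good_comm A ?_) g Finset.univ
    (fun i _ => hcov (g i)) (by rw [Finset.card_fin]; exact hs)
  rintro ⟨x, hx⟩ ⟨y, hy⟩
  exact Subtype.ext (hc A hA x hx y hy)

/-- groups with a partition into commutative subgroups -/
theorem good_partition (G : Type*) [Group G] [Finite G] (S : Finset (Subgroup G))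
    (hc : ∀ A ∈ S, ∀ x ∈ A, ∀ y ∈ A, x * y = y * x) (hcov : ∀ g : G, ∃ A ∈ S, g ∈ A)
    (hd : ∀ A ∈ S, ∀ B ∈ S, A ≠ B → A ⊓ B = ⊥) : Good G (Nat.card G) := by
  classical
  have : Fintype G := Fintype.ofFinite G
  refine good_of_comm_cover G S hc hcov ?_
  have h1 : ∀ A : Subgroup G, Nat.card A - 1 =
      ((Finset.univ.filter (fun x : G => x ∈ A)).erase 1).card := by
    intro A
    rw [Finset.card_erase_of_mem (by simp [A.one_mem])]
    congr 1
    rw [Nat.card_eq_fintype_card, Fintype.card_subtype]
  rw [Finset.sum_congr rfl (fun A _ => h1 A), ← Finset.card_biUnion]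
  · rw [Nat.card_eq_fintype_card]
    have h2 : (S.biUnion (fun A => (Finset.univ.filter (fun x : G => x ∈ A)).erase 1)) ⊆
        Finset.univ.erase 1 := by
      intro x hx
      rw [Finset.mem_biUnion] at hx
      obtain ⟨A, _, hx⟩ := hx
      exact Finset.mem_erase.2 ⟨(Finset.mem_erase.1 hx).1, Finset.mem_univ _⟩
    have h3 := Finset.card_le_card h2
    rw [Finset.card_erase_of_mem (Finset.mem_univ _), Finset.card_univ] at h3
    have h4 : 0 < Fintype.card G := Fintype.card_pos
    omega
  · intro A hA B hB hAB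
    rw [Function.onFun, Finset.disjoint_left]
    intro x hx hx'
    rw [Finset.mem_erase, Finset.mem_filter] at hx hx'
    have h5 : x ∈ A ⊓ B := ⟨hx.2.2, hx'.2.2⟩
    rw [hd A hA B hB hAB, Subgroup.mem_bot] at h5
    exact hx.1 h5

/-- dihedral groups -/
theorem good_dihedral (n : ℕ) (hn : n ≠ 0) : Good (DihedralGroup n) (2 * n) := by
  classical
  have : NeZero n := ⟨hn⟩
  have hcard : Nat.card (DihedralGroup n) = 2 * n := DihedralGroup.nat_card
  rw [← hcard]
  refine good_of_comm_cover _ (insert (Subgroup.zpowers (DihedralGroup.r 1))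
    (Finset.univ.image (fun i : ZMod n => Subgroup.zpowers (DihedralGroup.sr i)))) ?_ ?_ ?_
  · have key : ∀ a x y : DihedralGroup n, x ∈ Subgroup.zpowers a → y ∈ Subgroup.zpowers a →
        x * y = y * x := by
      rintro a x y ⟨i, rfl⟩ ⟨j, rfl⟩
      show a ^ i * a ^ j = a ^ j * a ^ i
      rw [← zpow_add, ← zpow_add, add_comm]
    intro A hA x hx y hy
    rw [Finset.mem_insert, Finset.mem_image] at hA
    rcases hA with rfl | ⟨i, _, rfl⟩
    · exact key _ x y hx hy
    · exact key _ x y hx hy
  · intro g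
    rcases g with i | i
    · refine ⟨_, Finset.mem_insert_self _ _, ?_⟩
      refine ⟨(i.val : ℤ), ?_⟩
      show DihedralGroup.r 1 ^ ((i.val : ℕ) : ℤ) = _
      rw [zpow_natCast, DihedralGroup.r_one_pow, ZMod.natCast_zmod_val]
    · refine ⟨_, Finset.mem_insert_of_mem (Finset.mem_image_of_mem _ (Finset.mem_univ i)), ?_⟩
      exact Subgroup.mem_zpowers _
  · rw [hcard]
    have h1 : ∑ A ∈ Finset.univ.image
        (fun i : ZMod n => Subgroup.zpowers (DihedralGroup.sr i)), (Nat.card A - 1) ≤ n := by
      have h2 : ∀ A ∈ Finset.univ.image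
          (fun i : ZMod n => Subgroup.zpowers (DihedralGroup.sr i)), Nat.card A - 1 = 1 := by
        intro A hA
        rw [Finset.mem_image] at hA
        obtain ⟨i, _, rfl⟩ := hA
        rw [Nat.card_zpowers, DihedralGroup.orderOf_sr]
      rw [Finset.sum_congr rfl h2, Finset.sum_const, smul_eq_mul, mul_one]
      refine le_trans Finset.card_image_le ?_
      rw [Finset.card_univ, ZMod.card]
    by_cases h3 : Subgroup.zpowers (DihedralGroup.r 1) ∈ Finset.univ.image
        (fun i : ZMod n => Subgroup.zpowers (DihedralGroup.sr i))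
    · rw [Finset.insert_eq_of_mem h3]
      omega
    · rw [Finset.sum_insert h3, Nat.card_zpowers, DihedralGroup.orderOf_r_one]
      omega

/-- Q2 has a positive answer for every finite group with a partition into commutative subgroups,
in particular for all dihedral groups. Further rules: covers by good subgroups; extensions. -/
theorem result :
    (∀ (G : Type) [Group G] [Finite G] (S : Finset (Subgroup G)),
      (∀ A ∈ S, ∀ x ∈ A, ∀ y ∈ A, x * y = y * x) → (∀ g : G, ∃ A ∈ S, g ∈ A) →
      (∀ A ∈ S, ∀ B ∈ S, A ≠ B → A ⊓ B = ⊥) → Good G (Nat.card G)) ∧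
    (∀ n : ℕ, n ≠ 0 → Good (DihedralGroup n) (2 * n)) ∧
    (∀ (G : Type) [Group G] (S : Finset (Subgroup G)) (L : Subgroup G → ℕ),
      (∀ A ∈ S, Good A (L A)) → (∀ g : G, ∃ A ∈ S, g ∈ A) → Good G (1 + ∑ A ∈ S, (L A - 1))) ∧
    (∀ (G : Type) [Group G] [Finite G] (N : Subgroup G) [N.Normal] (L' : ℕ),
      Good (G ⧸ N) L' → ∀ (S : Finset (Subgroup G)) (L : Subgroup G → ℕ),
      (∀ A ∈ S, Good A (L A)) →
      (∀ g : G, g ≠ 1 → Nat.card N * orderOf (g : G ⧸ N) ≤ orderOf g ∨ ∃ A ∈ S, g ∈ A) →
      Good G (Nat.card N * L' + ∑ A ∈ S, (L A - 1))) :=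
  ⟨fun G _ _ S h1 h2 h3 => good_partition G S h1 h2 h3, good_dihedral,
    fun G _ S L h1 h2 => good_cover G S L h1 h2,
    fun G _ _ N _ L' h1 S L h2 h3 => good_ext G N L' h1 S L h2 h3⟩

end Pool.Agent.Results.MP_94c9ac_al.IndexOrderCovers
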